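import Mathlib

/-! Ramsey numbers of 0-1 matrices with few 1-entries in each row. -/

namespace Pool.Agent.H68.RS

open Finset

/-- A copy of the `n × n` matrix `M` (the set of its 1-entries) in the 2-coloured `N × N` matrix
`χ`, all of whose 1-entries have colour `b`: rows `f 0 < f 1 < ...`, columns `g 0 < g 1 < ...`. -/
def HasMonoCopy {n N : ℕ} (M : Fin n → Fin n → Prop) (χ : Fin N → Fin N → Bool) : Prop :=
  ∃ (b : Bool) (f g : Fin n → Fin N), StrictMono f ∧ StrictMono g ∧
    ∀ r c, M r c → χ (f r) (g c) = b

/-- The Ramsey number of `M`. -/
noncomputable def R {n : ℕ} (M : Fin n → Fin n → Prop) : ℕ :=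
  sInf {N : ℕ | ∀ χ : Fin N → Fin N → Bool, HasMonoCopy M χ}

/-- `f_d(n)`: the largest `R(M)` over `n × n` matrices with at most `d` 1-entries in each row. -/
noncomputable def f (d n : ℕ) : ℕ :=
  sSup {m : ℕ | ∃ M : Fin n → Fin n → Prop, (∀ r, {c | M r c}.ncard ≤ d) ∧ R M = m}

open scoped Classical in
theorem core {n d : ℕ} (hn : 1 ≤ n) (M : Fin n → Fin n → Prop)
    (hd : ∀ r, (univ.filter (fun c => M r c)).card ≤ d) (χ : ℕ → ℕ → Bool) {N : ℕ}
    (hN : N = n ^ (d + 1)) :
    ∃ (b : Bool) (f g : Fin n → ℕ), StrictMono f ∧ StrictMono g ∧ (∀ r, f r < N) ∧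
      (∀ c, g c < N) ∧ ∀ r c, M r c → χ (f r) (g c) = b := by
  by_contra hno
  -- numbers of 1-entries in the columns and the starts of the column blocks
  set k : ℕ → ℕ := fun c => (univ.filter (fun r : Fin n => ∃ h : c < n, M r ⟨c, h⟩)).card with hk
  set st : ℕ → ℕ := fun m => ∑ c ∈ range m, (k c * (n - 1) + 1) with hst
  have hst1 : ∀ m, st (m + 1) = st m + (k m * (n - 1) + 1) := fun m => by
    rw [hst]; simp [Finset.sum_range_succ]
  have hstmono : Monotone st := monotone_nat_of_le_succ (fun m => by rw [hst1]; omega)
  -- total number of columns
  have hksum : ∑ c ∈ range n, k c ≤ d * n := by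
    have h1 : ∑ c ∈ range n, k c = ∑ c : Fin n, (univ.filter (fun r : Fin n => M r c)).card := by
      rw [Finset.sum_range]
      apply Finset.sum_congr rfl
      intro c _
      simp only [hk]
      congr 1
      ext r
      simp
    have h2 : ∑ c : Fin n, (univ.filter (fun r : Fin n => M r c)).card =
        ∑ r : Fin n, (univ.filter (fun c : Fin n => M r c)).card := by
      simp only [Finset.card_filter]
      rw [Finset.sum_comm]
    rw [h1, h2]
    calc _ ≤ ∑ _r : Fin n, d := Finset.sum_le_sum (fun r _ => hd r)
      _ = d * n := by simp [mul_comm]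
  have hstn : st n ≤ N := by
    have h1 : st n = (∑ c ∈ range n, k c) * (n - 1) + n := by
      rw [hst]
      simp [Finset.sum_add_distrib, Finset.sum_mul]
    obtain ⟨t, rfl⟩ : ∃ t, n = t + 1 := ⟨n - 1, by omega⟩
    have h2 : 1 + d * t ≤ (t + 1) ^ d := by
      have := one_add_mul_le_pow (a := (t : ℤ)) (by omega) d
      have h3 : ((1 + d * t : ℕ) : ℤ) ≤ (((t + 1) ^ d : ℕ) : ℤ) := by
        push_cast
        have h4 : (1 + (t : ℤ)) ^ d = ((t : ℤ) + 1) ^ d := by rw [add_comm]
        rw [h4] at this
        exact this
      exact_mod_cast h3
    rw [h1, hN, pow_succ]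
    simp only [Nat.add_sub_cancel]
    calc (∑ c ∈ range (t + 1), k c) * t + (t + 1) ≤ (d * (t + 1)) * t + (t + 1) := by
          have := Nat.mul_le_mul_right t hksum
          omega
      _ = (1 + d * t) * (t + 1) := by ring
      _ ≤ (t + 1) ^ d * (t + 1) := Nat.mul_le_mul_right _ h2
  set T := n ^ d with hT
  have hNT : N = n * T := by rw [hN, hT, pow_succ]; ring
  have hrow : ∀ (r : Fin n) (x : ℕ), x < T → (r : ℕ) * T + x < N := by
    intro r x hx
    have h1 : (r : ℕ) + 1 ≤ n := r.2
    have h2 : ((r : ℕ) + 1) * T ≤ n * T := Nat.mul_le_mul_right _ h1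
    rw [Nat.add_mul, one_mul] at h2
    omega
  -- number of 1-entries of row `r` in the first `m` columns
  set hh : Fin n → ℕ → ℕ := fun r m => (univ.filter (fun c : Fin n => (c : ℕ) < m ∧ M r c)).card
    with hhdef
  have hhle : ∀ r m, hh r m ≤ d := by
    intro r m
    refine le_trans (Finset.card_le_card ?_) (hd r)
    intro c hc
    rw [mem_filter] at hc ⊢
    exact ⟨hc.1, hc.2.2⟩
  -- the induction
  have key : ∀ m, m ≤ n → ∃ (g : ℕ → ℕ) (S : Fin n → Finset ℕ),
      (∀ c, c < m → st c ≤ g c ∧ g c < st (c + 1)) ∧
      ∀ r, S r ⊆ range T ∧ n ^ (d - hh r m) ≤ (S r).card ∧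
        ∀ c : Fin n, (c : ℕ) < m → M r c → ∀ x ∈ S r, χ ((r : ℕ) * T + x) (g c) = true := by
    intro m
    induction m with
    | zero =>
      intro _
      refine ⟨fun _ => 0, fun _ => range T, by simp, ?_⟩
      intro r
      refine ⟨Subset.rfl, ?_, by simp⟩
      simp [hhdef, hT]
    | succ m ih =>
      intro hm
      obtain ⟨g, S, hg, hS⟩ := ih (by omega)
      set cm : Fin n := ⟨m, by omega⟩ with hcm
      -- candidates
      set J : Finset ℕ := Finset.Ico (st m) (st (m + 1)) with hJ
      have hJcard : J.card = k m * (n - 1) + 1 := by
        rw [hJ, Nat.card_Ico, hst1]; omega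
      by_cases hgood : ∃ j ∈ J, ∀ r, M r cm →
          n ^ (d - hh r m - 1) ≤ ((S r).filter (fun x => χ ((r : ℕ) * T + x) j = true)).card
      · obtain ⟨j, hj, hjr⟩ := hgood
        refine ⟨fun c => if c = m then j else g c,
          fun r => if M r cm then (S r).filter (fun x => χ ((r : ℕ) * T + x) j = true) else S r,
          ?_, ?_⟩
        · intro c hc
          by_cases hcm' : c = m
          · subst hcm'
            simp only [if_true]
            rw [hJ, Finset.mem_Ico] at hj
            exact hj
          · simp only [hcm', if_false]
            exact hg c (by omega)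
        · intro r
          obtain ⟨h1, h2, h3⟩ := hS r
          by_cases hMr : M r cm
          · simp only [hMr, if_true]
            have hhs : hh r (m + 1) = hh r m + 1 := by
              rw [hhdef]
              simp only
              rw [← Finset.card_insert_of_notMem (s := univ.filter
                (fun c : Fin n => (c : ℕ) < m ∧ M r c)) (a := cm) (by simp [hcm])]
              congr 1
              ext c
              simp only [mem_filter, mem_univ, true_and, mem_insert]
              constructor
              · rintro ⟨h4, h5⟩
                rcases Nat.lt_succ_iff_lt_or_eq.mp h4 with h6 | h6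
                · exact Or.inr ⟨h6, h5⟩
                · exact Or.inl (Fin.ext h6)
              · rintro (rfl | ⟨h4, h5⟩)
                · exact ⟨by simp [hcm], hMr⟩
                · exact ⟨by omega, h5⟩
            refine ⟨(Finset.filter_subset _ _).trans h1, ?_, ?_⟩
            · rw [hhs, ← Nat.sub_sub]
              exact hjr r hMr
            · intro c hc hMc x hx
              rw [mem_filter] at hx
              by_cases hcm' : (c : ℕ) = m
              · simp only [hcm', if_true]
                exact hx.2
              · simp only [hcm', if_false]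
                exact h3 c (by omega) hMc x hx.1
          · simp only [hMr, if_false]
            have hhs : hh r (m + 1) = hh r m := by
              rw [hhdef]
              simp only
              congr 1
              ext c
              simp only [mem_filter, mem_univ, true_and]
              constructor
              · rintro ⟨h4, h5⟩
                rcases Nat.lt_succ_iff_lt_or_eq.mp h4 with h6 | h6
                · exact ⟨h6, h5⟩
                · exfalso
                  apply hMr
                  have : c = cm := Fin.ext h6
                  rw [← this]; exact h5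
              · rintro ⟨h4, h5⟩
                exact ⟨by omega, h5⟩
            refine ⟨h1, ?_, ?_⟩
            · rw [hhs]; exact h2
            · intro c hc hMc x hx
              by_cases hcm' : (c : ℕ) = m
              · exfalso
                apply hMr
                have : c = cm := Fin.ext hcm'
                rw [← this]; exact hMc
              · simp only [hcm', if_false]
                exact h3 c (by omega) hMc x hx
      · -- a big block of the other colour
        exfalso
        push Not at hgood
        have : Nonempty (Fin n) := ⟨cm⟩
        choose! ρ hρM hρ using hgood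
        set A : Finset (Fin n) := univ.filter (fun r => M r cm) with hA
        have hAk : A.card = k m := by
          rw [hA, hk]
          simp only
          congr 1
          ext r
          simp only [mem_filter, mem_univ, true_and]
          constructor
          · intro h; exact ⟨by omega, h⟩
          · rintro ⟨_, h⟩; exact h
        have hmaps : ∀ j ∈ J, ρ j ∈ A := by
          intro j hj
          rw [hA, mem_filter]
          exact ⟨mem_univ _, hρM j hj⟩
        obtain ⟨r, hrA, hrcard⟩ := Finset.exists_lt_card_fiber_of_mul_lt_card_of_maps_to
          (n := n - 1) hmaps (by rw [hAk, hJcard]; omega)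
        obtain ⟨Y, hYsub, hYcard⟩ := Finset.exists_subset_card_eq
          (show n ≤ (J.filter (fun j => ρ j = r)).card by omega)
        obtain ⟨h1, h2, h3⟩ := hS r
        -- rows of `S r` that have the other colour on all of `Y`
        set X : Finset ℕ := (S r).filter (fun x => ∀ j ∈ Y, χ ((r : ℕ) * T + x) j = false) with hX
        have hMr : M r cm := by
          rw [hA, mem_filter] at hrA
          exact hrA.2
        have hhlt : hh r m < d := by
          have h4 : hh r m + 1 ≤ hh r (m + 1) := by
            rw [hhdef]
            simp only
            rw [← Finset.card_insert_of_notMem (s := univ.filter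
                (fun c : Fin n => (c : ℕ) < m ∧ M r c)) (a := cm) (by simp [hcm])]
            apply Finset.card_le_card
            intro c
            simp only [mem_filter, mem_univ, true_and, mem_insert]
            rintro (rfl | ⟨h4, h5⟩)
            · exact ⟨by simp [hcm], hMr⟩
            · exact ⟨by omega, h5⟩
          have := hhle r (m + 1)
          omega
        have hXcard : n ≤ X.card := by
          have hsplit : (S r).card ≤ X.card + (Y.biUnion (fun j =>
              (S r).filter (fun x => χ ((r : ℕ) * T + x) j = true))).card := by
            rw [← Finset.card_union_of_disjoint]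
            · apply Finset.card_le_card
              intro x hx
              rw [mem_union]
              by_cases hall : ∀ j ∈ Y, χ ((r : ℕ) * T + x) j = false
              · left; rw [hX, mem_filter]; exact ⟨hx, hall⟩
              · right
                push Not at hall
                obtain ⟨j, hj, hne⟩ := hall
                rw [mem_biUnion]
                exact ⟨j, hj, by rw [mem_filter]; exact ⟨hx, by simpa using hne⟩⟩
            · rw [Finset.disjoint_left]
              intro x hx hx'
              rw [hX, mem_filter] at hx
              rw [mem_biUnion] at hx'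
              obtain ⟨j, hj, hjx⟩ := hx'
              rw [mem_filter] at hjx
              rw [hx.2 j hj] at hjx
              exact absurd hjx.2 (by simp)
          have hbi : (Y.biUnion (fun j =>
              (S r).filter (fun x => χ ((r : ℕ) * T + x) j = true))).card ≤
              n * (n ^ (d - hh r m - 1) - 1) := by
            have h8 : (Y.biUnion (fun j =>
              (S r).filter (fun x => χ ((r : ℕ) * T + x) j = true))).card ≤
              Y.card * (n ^ (d - hh r m - 1) - 1) := by
              apply Finset.card_biUnion_le_card_mul
              intro j hj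
              have h5 := hYsub hj
              rw [mem_filter] at h5
              have h6 := hρ j h5.1
              rw [h5.2] at h6
              omega
            have h9 : Y.card * (n ^ (d - hh r m - 1) - 1) = n * (n ^ (d - hh r m - 1) - 1) :=
              congrArg (fun z => z * (n ^ (d - hh r m - 1) - 1)) hYcard
            exact h8.trans h9.le
          have hpow : n ^ (d - hh r m) = n * n ^ (d - hh r m - 1) := by
            have : d - hh r m = (d - hh r m - 1) + 1 := by omega
            conv_lhs => rw [this]
            rw [pow_succ]; ring
          have hpos : 1 ≤ n ^ (d - hh r m - 1) := Nat.one_le_pow _ _ hn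
          have h7 : n * (n ^ (d - hh r m - 1) - 1) + n = n * n ^ (d - hh r m - 1) := by
            obtain ⟨q, hq⟩ : ∃ q, n ^ (d - hh r m - 1) = q + 1 := ⟨_, (Nat.sub_add_cancel hpos).symm⟩
            rw [hq]
            simp only [Nat.add_sub_cancel]
            ring
          omega
        obtain ⟨X', hX'sub, hX'card⟩ := Finset.exists_subset_card_eq hXcard
        apply hno
        refine ⟨false, fun a => (r : ℕ) * T + X'.orderEmbOfFin hX'card a,
          fun c => Y.orderEmbOfFin hYcard c, ?_, ?_, ?_, ?_, ?_⟩
        · intro a b hab
          have := (X'.orderEmbOfFin hX'card).strictMono hab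
          simp only
          omega
        · exact (Y.orderEmbOfFin hYcard).strictMono
        · intro a
          have h5 := hX'sub (X'.orderEmbOfFin_mem hX'card a)
          rw [hX, mem_filter] at h5
          have h6 := h1 h5.1
          rw [mem_range] at h6
          exact hrow r _ h6
        · intro c
          have h5 := hYsub (Y.orderEmbOfFin_mem hYcard c)
          rw [mem_filter, hJ, Finset.mem_Ico] at h5
          have h6 : st (m + 1) ≤ st n := hstmono hm
          exact lt_of_lt_of_le h5.1.2 (h6.trans hstn)
        · intro a c _
          have h5 := hX'sub (X'.orderEmbOfFin_mem hX'card a)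
          rw [hX, mem_filter] at h5
          exact h5.2 _ (Y.orderEmbOfFin_mem hYcard c)
  obtain ⟨g, S, hg, hS⟩ := key n le_rfl
  have hne : ∀ r, (S r).Nonempty := by
    intro r
    rw [← Finset.card_pos]
    exact lt_of_lt_of_le (Nat.pow_pos (by omega)) (hS r).2.1
  choose x hx using hne
  apply hno
  refine ⟨true, fun r => (r : ℕ) * T + x r, fun c => g c, ?_, ?_, ?_, ?_, ?_⟩
  · intro a b hab
    have h1 : x a < T := mem_range.mp ((hS a).1 (hx a))
    have h2 : (a : ℕ) + 1 ≤ b := hab
    have h3 : ((a : ℕ) + 1) * T ≤ b * T := Nat.mul_le_mul_right _ h2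
    rw [Nat.add_mul, one_mul] at h3
    simp only
    omega
  · intro a b hab
    have h1 := (hg a a.2).2
    have h2 := (hg b b.2).1
    have h3 : st ((a : ℕ) + 1) ≤ st b := hstmono hab
    simp only
    omega
  · intro r
    exact hrow r _ (mem_range.mp ((hS r).1 (hx r)))
  · intro c
    have h1 := (hg c c.2).2
    have h2 : st ((c : ℕ) + 1) ≤ st n := hstmono c.2
    simp only
    omega
  · intro r c hM
    exact (hS r).2.2 c c.2 hM _ (hx r)

theorem hasMonoCopy {n d : ℕ} (hn : 1 ≤ n) (M : Fin n → Fin n → Prop)
    (hd : ∀ r, {c | M r c}.ncard ≤ d) (χ : Fin (n ^ (d + 1)) → Fin (n ^ (d + 1)) → Bool) :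
    HasMonoCopy M χ := by
  classical
  have hd' : ∀ r, (univ.filter (fun c => M r c)).card ≤ d := by
    intro r
    have h1 := hd r
    rw [Set.ncard_eq_toFinset_card'] at h1
    convert h1 using 2
    ext c
    simp
  obtain ⟨b, f, g, hf, hg, hfN, hgN, hM⟩ := core hn M hd'
    (fun i j => if h : i < n ^ (d + 1) ∧ j < n ^ (d + 1) then χ ⟨i, h.1⟩ ⟨j, h.2⟩ else false) rfl
  refine ⟨b, fun r => ⟨f r, hfN r⟩, fun c => ⟨g c, hgN c⟩, fun a b hab => hf hab,
    fun a b hab => hg hab, ?_⟩
  intro r c hrc
  have := hM r c hrc
  rw [dif_pos ⟨hfN r, hgN c⟩] at this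
  exact this

theorem R_le {n d : ℕ} (hn : 1 ≤ n) (M : Fin n → Fin n → Prop)
    (hd : ∀ r, {c | M r c}.ncard ≤ d) : R M ≤ n ^ (d + 1) :=
  Nat.sInf_le (fun χ => hasMonoCopy hn M hd χ)

end Pool.Agent.H68.RS
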