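import Mathlib

/-! Counting lemmas. -/

namespace Pool.Agent.H68.RS

open Finset

theorem card_mono {α : Type*} [Fintype α] [DecidableEq α] (Q : Finset α) (b : Bool) :
    (univ.filter (fun c : α → Bool => ∀ z ∈ Q, c z = b)).card = 2 ^ (Fintype.card α - Q.card) := by
  have h : (univ.filter (fun c : α → Bool => ∀ z ∈ Q, c z = b)) =
      Fintype.piFinset (fun z => if z ∈ Q then ({b} : Finset Bool) else univ) := by
    ext c
    simp only [mem_filter, mem_univ, true_and, Fintype.mem_piFinset]
    constructor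
    · intro h z
      by_cases hz : z ∈ Q
      · simp [hz, h z hz]
      · simp [hz]
    · intro h z hz
      have := h z
      simpa [hz] using this
  rw [h, Fintype.card_piFinset]
  have h2 : ∀ z : α, (if z ∈ Q then ({b} : Finset Bool) else univ).card = if z ∈ Q then 1 else 2 := by
    intro z
    by_cases hz : z ∈ Q <;> simp [hz]
  simp only [h2]
  rw [Finset.prod_ite]
  simp only [prod_const_one, one_mul, prod_const]
  congr 1
  rw [← Finset.card_compl]
  congr 1
  ext z
  simp

/-- the number of colourings constant on some member of a family -/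
theorem card_bad {α : Type*} [Fintype α] [DecidableEq α] (A : Finset (Finset α)) (q : ℕ)
    (hA : ∀ Q ∈ A, q ≤ Q.card) (hc : A.card * 4 < 2 ^ q) :
    2 * (univ.filter (fun c : α → Bool => ∃ b, ∃ Q ∈ A, ∀ z ∈ Q, c z = b)).card <
      2 ^ Fintype.card α := by
  rcases A.eq_empty_or_nonempty with rfl | ⟨Q0, hQ0⟩
  · simp
  have hq : q ≤ Fintype.card α := (hA Q0 hQ0).trans (Finset.card_le_univ Q0)
  have h1 : (univ.filter (fun c : α → Bool => ∃ b, ∃ Q ∈ A, ∀ z ∈ Q, c z = b)) ⊆
      (univ : Finset Bool).biUnion (fun b => A.biUnion (fun Q =>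
        univ.filter (fun c : α → Bool => ∀ z ∈ Q, c z = b))) := by
    intro c hc
    simp only [mem_filter, mem_univ, true_and] at hc
    obtain ⟨b, Q, hQ, h⟩ := hc
    simp only [mem_biUnion, mem_univ, true_and, mem_filter]
    exact ⟨b, Q, hQ, h⟩
  have h2 : ∀ b : Bool, (A.biUnion (fun Q =>
        univ.filter (fun c : α → Bool => ∀ z ∈ Q, c z = b))).card ≤
        A.card * 2 ^ (Fintype.card α - q) := by
    intro b
    apply Finset.card_biUnion_le_card_mul
    intro Q hQ
    rw [card_mono]
    exact Nat.pow_le_pow_right (by norm_num) (by have := hA Q hQ; omega)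
  have h3 : (univ.filter (fun c : α → Bool => ∃ b, ∃ Q ∈ A, ∀ z ∈ Q, c z = b)).card ≤
      2 * (A.card * 2 ^ (Fintype.card α - q)) := by
    refine (Finset.card_le_card h1).trans ?_
    refine (Finset.card_biUnion_le_card_mul _ _ _ (fun b _ => h2 b)).trans ?_
    simp
  calc _ ≤ 2 * (2 * (A.card * 2 ^ (Fintype.card α - q))) := by omega
    _ = (A.card * 4) * 2 ^ (Fintype.card α - q) := by ring
    _ < 2 ^ q * 2 ^ (Fintype.card α - q) :=
        Nat.mul_lt_mul_of_pos_right hc (by positivity)
    _ = 2 ^ Fintype.card α := by rw [← pow_add]; congr 1; omega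

theorem avoid {α : Type*} [Fintype α] [DecidableEq α] (A B : Finset (Finset α)) (q q' : ℕ)
    (hA : ∀ Q ∈ A, q ≤ Q.card) (hc : A.card * 4 < 2 ^ q)
    (hB : ∀ Q ∈ B, q' ≤ Q.card) (hc' : B.card * 4 < 2 ^ q') :
    ∃ c : α → Bool, (∀ b, ∀ Q ∈ A, ¬ ∀ z ∈ Q, c z = b) ∧ (∀ b, ∀ Q ∈ B, ¬ ∀ z ∈ Q, c z = b) := by
  by_contra hno
  have h1 := card_bad A q hA hc
  have h2 := card_bad B q' hB hc'
  have h3 : (univ : Finset (α → Bool)) ⊆
      (univ.filter (fun c : α → Bool => ∃ b, ∃ Q ∈ A, ∀ z ∈ Q, c z = b)) ∪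
      (univ.filter (fun c : α → Bool => ∃ b, ∃ Q ∈ B, ∀ z ∈ Q, c z = b)) := by
    intro c _
    by_contra hc
    simp only [mem_union, mem_filter, mem_univ, true_and, not_or] at hc
    apply hno
    refine ⟨c, fun b Q hQ h => hc.1 ⟨b, Q, hQ, h⟩, fun b Q hQ h => hc.2 ⟨b, Q, hQ, h⟩⟩
  have h4 := Finset.card_le_card h3
  have h5 := h4.trans (Finset.card_union_le _ _)
  rw [Finset.card_univ, Fintype.card_fun, Fintype.card_bool] at h5
  omega

/-- the number of monotone maps -/
theorem card_monotone (n t : ℕ) :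
    (univ.filter (fun u : Fin n → Fin t => Monotone u)).card ≤ (n + t).choose n := by
  classical
  have h0 : (n + t).choose n = (powersetCard n (range (n + t))).card := by
    rw [card_powersetCard, card_range]
  rw [h0]
  have hs : ∀ u : Fin n → Fin t, Monotone u → StrictMono (fun a : Fin n => (a : ℕ) + (u a : ℕ)) := by
    intro u hu a a' h
    have h1 : (a : ℕ) < a' := h
    have h2 : (u a : ℕ) ≤ u a' := hu h.le
    simp only
    omega
  apply Finset.card_le_card_of_injOn (fun u => univ.image (fun a : Fin n => (a : ℕ) + (u a : ℕ)))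
  · intro u hu
    simp only [coe_filter, mem_univ, true_and, Set.mem_ofPred_eq] at hu
    rw [mem_coe, mem_powersetCard]
    constructor
    · intro z hz
      rw [mem_image] at hz
      obtain ⟨a, _, rfl⟩ := hz
      have h1 := a.2
      have h2 := (u a).2
      rw [mem_range]
      omega
    · rw [Finset.card_image_of_injective _ (hs u hu).injective]
      simp
  · intro u hu u' hu' h
    simp only [coe_filter, mem_univ, true_and, Set.mem_ofPred_eq] at hu hu'
    simp only at h
    have h1 : Set.range (fun a : Fin n => (a : ℕ) + (u a : ℕ)) =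
        Set.range (fun a : Fin n => (a : ℕ) + (u' a : ℕ)) := by
      ext z
      have h2 := Finset.ext_iff.mp h z
      simpa using h2
    have h3 := (StrictMono.range_inj (hs u hu) (hs u' hu')).mp h1
    funext a
    have h4 : (a : ℕ) + (u a : ℕ) = (a : ℕ) + (u' a : ℕ) := congrFun h3 a
    apply Fin.ext
    omega

theorem num_ineq : 2049 ^ 2049 ≤ 2 ^ 13 * 2048 ^ 2048 := by
  decide +kernel

theorem choose_bound (t : ℕ) : (2048 * t + t).choose (2048 * t) ≤ 2 ^ (13 * t) := by
  have h1 : (2048 * t + t).choose (2048 * t) * 2048 ^ (2048 * t) ≤ 2049 ^ (2048 * t + t) := by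
    have h2 := add_pow 2048 1 (2048 * t + t)
    have h3 : (2048 : ℕ) + 1 = 2049 := by norm_num
    rw [h3] at h2
    rw [h2]
    have h4 := Finset.single_le_sum (f := fun m => 2048 ^ m * 1 ^ (2048 * t + t - m) *
      ((2048 * t + t).choose m)) (s := range (2048 * t + t + 1)) (fun _ _ => Nat.zero_le _)
      (show 2048 * t ∈ range (2048 * t + t + 1) by rw [mem_range]; omega)
    refine le_trans (le_of_eq ?_) h4
    simp only [one_pow, mul_one]
    ring
  have h5 : 2049 ^ (2048 * t + t) ≤ 2 ^ (13 * t) * 2048 ^ (2048 * t) := by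
    have : 2048 * t + t = 2049 * t := by ring
    rw [this, pow_mul, pow_mul, pow_mul, ← mul_pow]
    exact Nat.pow_le_pow_left num_ineq t
  have h6 : 0 < 2048 ^ (2048 * t) := by positivity
  exact Nat.le_of_mul_le_mul_right (h1.trans h5) h6

end Pool.Agent.H68.RS
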