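import Pool.Agent.H68.RS.Low

/-! The lower bound. -/

namespace Pool.Agent.H68.RS

open Finset

/-- threshold: at least `r` fibres have size `≥ X`, fewer than `r` have size `≥ X + 1` -/
theorem threshold {n t s r : ℕ} (u : Fin n → Fin t) (hr : 1 ≤ r) (hrt : r ≤ t)
    (hs : ∀ x, (univ.filter (fun a => u a = x)).card ≤ s) :
    ∃ X, X ≤ s ∧ r ≤ (univ.filter (fun x => X ≤ (univ.filter (fun a => u a = x)).card)).card ∧
      (univ.filter (fun x => X + 1 ≤ (univ.filter (fun a => u a = x)).card)).card < r := by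
  classical
  set T : ℕ → ℕ := fun X => (univ.filter (fun x => X ≤ (univ.filter (fun a => u a = x)).card)).card
    with hT
  have h0 : r ≤ T 0 := by
    rw [hT]; simp only [Nat.zero_le, Finset.filter_true, Finset.card_univ, Fintype.card_fin]
    exact hrt
  have hs1 : T (s + 1) < r := by
    have : T (s + 1) = 0 := by
      rw [hT]
      simp only
      rw [Finset.card_eq_zero, Finset.filter_eq_empty_iff]
      intro x _
      have := hs x
      omega
    omega
  have hex : ∃ X, T X < r := ⟨s + 1, hs1⟩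
  have h1 := Nat.find_spec hex
  have h2 : Nat.find hex ≠ 0 := by
    intro h
    rw [h] at h1
    omega
  obtain ⟨X, hX⟩ : ∃ X, Nat.find hex = X + 1 := ⟨Nat.find hex - 1, by omega⟩
  have h3 : ¬ T X < r := Nat.find_min hex (by omega)
  have h4 : Nat.find hex ≤ s + 1 := Nat.find_min' hex hs1
  rw [hX] at h1
  exact ⟨X, by omega, by simpa using h3, h1⟩

/-- the rows in large fibres are few -/
theorem large_few {n t s r X : ℕ} (u : Fin n → Fin t)
    (hs : ∀ x, (univ.filter (fun a => u a = x)).card ≤ s)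
    (hr : (univ.filter (fun x => X + 1 ≤ (univ.filter (fun a => u a = x)).card)).card < r) :
    (univ.filter (fun a => ¬ (univ.filter (fun a' => u a' = u a)).card ≤ X)).card ≤ r * s := by
  classical
  have h1 : (univ.filter (fun a => ¬ (univ.filter (fun a' => u a' = u a)).card ≤ X)) ⊆
      (univ.filter (fun x => X + 1 ≤ (univ.filter (fun a => u a = x)).card)).biUnion
        (fun x => univ.filter (fun a => u a = x)) := by
    intro a ha
    rw [mem_filter] at ha
    rw [mem_biUnion]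
    refine ⟨u a, ?_, ?_⟩
    · rw [mem_filter]
      exact ⟨mem_univ _, by omega⟩
    · rw [mem_filter]; exact ⟨mem_univ _, rfl⟩
  refine (Finset.card_le_card h1).trans ?_
  refine (Finset.card_biUnion_le_card_mul _ _ s (fun x _ => hs x)).trans ?_
  exact Nat.mul_le_mul_right _ hr.le

theorem no_maps (k s : ℕ) (hk : 17 ≤ k) (hsk : 4 * (2 * k + 1) * s ≤ 2 ^ k) :
    ∃ c : Fin (2 ^ (k - 11)) × Fin (2 ^ (k - 11)) → Bool,
      ∀ b, ∀ u v : Fin (2 ^ k) → Fin (2 ^ (k - 11)), Monotone u → Monotone v →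
        (∀ x, (univ.filter (fun a => u a = x)).card ≤ s) →
        (∀ x, (univ.filter (fun a => v a = x)).card ≤ s) →
        ¬ ∀ a, c (u a, v (piF k a)) = b := by
  classical
  obtain ⟨c, hc1, hc2⟩ := exists_colouring k (by omega)
  refine ⟨c, ?_⟩
  intro b u v hu hv hus hvs hcol
  have hcol' : ∀ z ∈ cells u v, c z = b := by
    intro z hz
    rw [cells, mem_image] at hz
    obtain ⟨a, _, rfl⟩ := hz
    exact hcol a
  have hrt : 2 * k + 1 ≤ 2 ^ (k - 11) := by
    have : ∀ m, 2 * (m + 17) + 1 ≤ 2 ^ (m + 6) := by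
      intro m
      induction m with
      | zero => norm_num
      | succ m ih =>
        have e : 2 ^ (m + 1 + 6) = 2 * 2 ^ (m + 6) := by rw [← pow_succ']
        rw [e]; omega
    have h := this (k - 17)
    rw [show k - 17 + 17 = k by omega, show k - 17 + 6 = k - 11 by omega] at h
    exact h
  have hs : s ≤ 2 ^ k := by
    refine le_trans ?_ hsk
    exact Nat.le_mul_of_pos_left _ (by omega)
  obtain ⟨X, hXs, hX1, hX2⟩ := threshold (r := 2 * k + 1) u (by omega) hrt hus
  obtain ⟨Y, hYs, hY1, hY2⟩ := threshold (r := 2 * k + 1) v (by omega) hrt hvs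
  by_cases hXY : 8 * 2 ^ k ≤ X * Y
  · obtain ⟨T, hT, hTc⟩ := Finset.exists_subset_card_eq hX1
    obtain ⟨T', hT', hTc'⟩ := Finset.exists_subset_card_eq hY1
    apply hc2 b T T' hTc hTc'
    rintro ⟨x, y⟩ hz
    rw [mem_product] at hz
    have h1 := hT hz.1
    have h2 := hT' hz.2
    rw [mem_filter] at h1 h2
    obtain ⟨a, ha1, ha2⟩ := meet hu hv x y X Y h1.2 h2.2 hXY
    have := hcol a
    rw [ha1, ha2] at this
    exact this
  · push Not at hXY
    apply hc1 b u v hu hv ?_ hcol'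
    set G := univ.filter (fun a : Fin (2 ^ k) => (univ.filter (fun a' => u a' = u a)).card ≤ X ∧
      (univ.filter (fun a' => v a' = v (piF k a))).card ≤ Y) with hG
    have hGc : 2 ^ k ≤ G.card + (2 * k + 1) * s + (2 * k + 1) * s := by
      have h1 := large_few u hus hX2
      have h2 := large_few v hvs hY2
      have h3 : (univ.filter (fun a => ¬ (univ.filter (fun a' => v a' = v (piF k a))).card ≤ Y)).card
          ≤ (univ.filter (fun a => ¬ (univ.filter (fun a' => v a' = v a)).card ≤ Y)).card := by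
        apply Finset.card_le_card_of_injOn (piF k)
        · intro a ha
          simp only [coe_filter, mem_univ, true_and, Set.mem_ofPred_eq] at ha ⊢
          exact ha
        · exact (piF_inj k).injOn
      have h4 : (univ : Finset (Fin (2 ^ k))) ⊆ G ∪
          (univ.filter (fun a => ¬ (univ.filter (fun a' => u a' = u a)).card ≤ X)) ∪
          (univ.filter (fun a => ¬ (univ.filter (fun a' => v a' = v (piF k a))).card ≤ Y)) := by
        intro a _
        rw [hG]
        simp only [mem_union, mem_filter, mem_univ, true_and]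
        tauto
      have h5 := Finset.card_le_card h4
      rw [Finset.card_univ, Fintype.card_fin] at h5
      have h6 := h5.trans (Finset.card_union_le _ _)
      have h7 := Finset.card_union_le G
        (univ.filter (fun a => ¬ (univ.filter (fun a' => u a' = u a)).card ≤ X))
      omega
    have himg : (G.image (fun a => (u a, v (piF k a)))).card ≤ (cells u v).card := by
      apply Finset.card_le_card
      rw [cells]
      exact Finset.image_subset_image (Finset.subset_univ _)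
    have hG32 : G.card ≤ 32 * (G.image (fun a => (u a, v (piF k a)))).card := by
      apply Finset.card_le_mul_card_image
      rintro ⟨x, y⟩ hxy
      rw [mem_image] at hxy
      obtain ⟨a0, ha0, he⟩ := hxy
      rw [hG, mem_filter] at ha0
      simp only [Prod.mk.injEq] at he
      obtain ⟨he1, he2⟩ := he
      rw [he1, he2] at ha0
      refine le_trans (Finset.card_le_card ?_)
        (few hu hv x y X Y ha0.2.1 ha0.2.2 hXY (hXs.trans hs))
      intro a ha
      rw [mem_filter] at ha ⊢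
      simp only [Prod.mk.injEq] at ha
      exact ⟨mem_univ _, ha.2⟩
    have h64 : 64 * 2 ^ (k - 6) = 2 ^ k := by
      rw [show (64 : ℕ) = 2 ^ 6 by norm_num, ← pow_add]
      congr 1; omega
    have h8 : 4 * ((2 * k + 1) * s) ≤ 2 ^ k := by rw [← mul_assoc]; exact hsk
    omega

/-- the permutation matrix of `π` -/
def P {n : ℕ} (π : Equiv.Perm (Fin n)) : Fin n → Fin n → Prop := fun r c => π r = c

/-- the block colouring -/
theorem no_copy (k s : ℕ) (hk : 17 ≤ k) (hsk : 4 * (2 * k + 1) * s ≤ 2 ^ k) :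
    ∃ χ : ℕ → ℕ → Bool, ∀ (b : Bool) (f g : Fin (2 ^ k) → ℕ), StrictMono f → StrictMono g →
      (∀ a, f a < 2 ^ (k - 11) * s) → (∀ a, g a < 2 ^ (k - 11) * s) →
      ¬ ∀ a, χ (f a) (g (piF k a)) = b := by
  classical
  obtain ⟨c, hc⟩ := no_maps k s hk hsk
  refine ⟨fun i j => if h : i / s < 2 ^ (k - 11) ∧ j / s < 2 ^ (k - 11) then
    c (⟨i / s, h.1⟩, ⟨j / s, h.2⟩) else false, ?_⟩
  intro b f g hf hg hfN hgN hcol
  have hs0 : 0 < s := by
    rcases Nat.eq_zero_or_pos s with h | h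
    · have := hfN ⟨0, by positivity⟩
      rw [h] at this
      omega
    · exact h
  have hd : ∀ i, i < 2 ^ (k - 11) * s → i / s < 2 ^ (k - 11) := fun i hi =>
    (Nat.div_lt_iff_lt_mul hs0).mpr hi
  have fib : ∀ (f : Fin (2 ^ k) → ℕ) (hf : StrictMono f) (hfN : ∀ a, f a < 2 ^ (k - 11) * s)
      (x : Fin (2 ^ (k - 11))), (univ.filter (fun a =>
        (⟨f a / s, hd _ (hfN a)⟩ : Fin (2 ^ (k - 11))) = x)).card ≤ s := by
    intro f hf hfN x
    have h1 : (univ.filter (fun a =>
        (⟨f a / s, hd _ (hfN a)⟩ : Fin (2 ^ (k - 11))) = x)).card ≤ (range s).card := by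
      apply Finset.card_le_card_of_injOn (fun a => f a % s)
      · intro a _
        rw [mem_coe, mem_range]
        exact Nat.mod_lt _ hs0
      · intro a ha a' ha' h
        simp only [coe_filter, mem_univ, true_and, Set.mem_ofPred_eq] at ha ha' h
        have h2 : f a / s = f a' / s := by
          have := congrArg Fin.val (ha.trans ha'.symm)
          exact this
        apply hf.injective
        rw [← Nat.div_add_mod (f a) s, ← Nat.div_add_mod (f a') s, h2, h]
    simpa using h1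
  have mon : ∀ (f : Fin (2 ^ k) → ℕ) (hf : StrictMono f) (hfN : ∀ a, f a < 2 ^ (k - 11) * s),
      Monotone (fun a => (⟨f a / s, hd _ (hfN a)⟩ : Fin (2 ^ (k - 11)))) := by
    intro f hf hfN a a' h
    exact Nat.div_le_div_right (hf.monotone h)
  apply hc b (fun a => ⟨f a / s, hd _ (hfN a)⟩) (fun a => ⟨g a / s, hd _ (hgN a)⟩)
    (mon f hf hfN) (mon g hg hgN) (fib f hf hfN) (fib g hg hgN)
  intro a
  have h1 := hcol a
  beta_reduce at h1
  rw [dif_pos ⟨hd _ (hfN a), hd _ (hgN _)⟩] at h1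
  exact h1

theorem lt_R {n N : ℕ} (M : Fin n → Fin n → Prop)
    (hne : ∃ N, ∀ χ : Fin N → Fin N → Bool, HasMonoCopy M χ) (χ : ℕ → ℕ → Bool)
    (h : ∀ (b : Bool) (f g : Fin n → ℕ), StrictMono f → StrictMono g → (∀ a, f a < N) →
      (∀ a, g a < N) → ¬ ∀ r c, M r c → χ (f r) (g c) = b) : N < R M := by
  by_contra hlt
  push Not at hlt
  have h1 : R M ∈ {N : ℕ | ∀ χ : Fin N → Fin N → Bool, HasMonoCopy M χ} := Nat.sInf_mem hne
  obtain ⟨b, f, g, hf, hg, hcol⟩ := h1 (fun i j => χ i j)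
  apply h b (fun a => f a) (fun a => g a) (fun a a' haa => hf haa) (fun a a' haa => hg haa)
    (fun a => lt_of_lt_of_le (f a).2 hlt) (fun a => lt_of_lt_of_le (g a).2 hlt)
  intro r c hrc
  exact hcol r c hrc

theorem P_row {n : ℕ} (π : Equiv.Perm (Fin n)) (r : Fin n) : {c | P π r c}.ncard ≤ 1 := by
  have : {c | P π r c} = {π r} := by
    ext c
    simp only [P, Set.mem_ofPred_eq, Set.mem_singleton_iff]
    exact eq_comm
  rw [this, Set.ncard_singleton]

theorem P_col {n : ℕ} (π : Equiv.Perm (Fin n)) (c : Fin n) : {r | P π r c}.ncard ≤ 1 := by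
  have : {r | P π r c} = {π.symm c} := by
    ext r
    simp only [P, Set.mem_ofPred_eq, Set.mem_singleton_iff]
    rw [Equiv.eq_symm_apply]
  rw [this, Set.ncard_singleton]

theorem P_ne {n : ℕ} (hn : 1 ≤ n) (π : Equiv.Perm (Fin n)) :
    ∃ N, ∀ χ : Fin N → Fin N → Bool, HasMonoCopy (P π) χ :=
  ⟨n ^ (1 + 1), fun χ => hasMonoCopy hn _ (P_row π) χ⟩

/-- bit reversal extended to `Fin n`, `n ≥ 2 ^ k` -/
def piN (k n : ℕ) (h : 2 ^ k ≤ n) (a : Fin n) : Fin n :=
  if (a : ℕ) < 2 ^ k then ⟨rev k a, lt_of_lt_of_le (rev_lt k a) h⟩ else a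

theorem piN_inv (k n : ℕ) (h : 2 ^ k ≤ n) : Function.Involutive (piN k n h) := by
  intro a
  unfold piN
  by_cases ha : (a : ℕ) < 2 ^ k
  · simp only [ha, if_true]
    rw [if_pos (rev_lt k a)]
    exact Fin.ext (rev_rev k a ha)
  · simp only [ha, if_false]

theorem le_R {n : ℕ} (hn : 1 ≤ n) (π : Equiv.Perm (Fin n)) : n ≤ R (P π) := by
  have := lt_R (N := n - 1) (P π) (P_ne hn π) (fun _ _ => true) (by
    intro b f g hf _ hfN _ _
    have h1 : (univ : Finset (Fin n)).card ≤ (range (n - 1)).card := by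
      apply Finset.card_le_card_of_injOn f
      · intro a _
        rw [mem_coe, mem_range]
        exact hfN a
      · exact hf.injective.injOn
    rw [Finset.card_univ, Fintype.card_fin, card_range] at h1
    omega)
  omega

theorem big (n : ℕ) (hn : 2 ^ 17 ≤ n) :
    ∃ π : Equiv.Perm (Fin n), (n : ℝ) ^ 2 / (2 ^ 19 * Real.log n) ≤ R (P π) := by
  set k := Nat.log 2 n with hk
  have hk1 : 2 ^ k ≤ n := Nat.pow_log_le_self 2 (by positivity)
  have hk2 : n < 2 ^ (k + 1) := Nat.lt_pow_succ_log_self (by norm_num) n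
  have hk17 : 17 ≤ k := by
    by_contra hlt
    push Not at hlt
    have : 2 ^ (k + 1) ≤ 2 ^ 17 := Nat.pow_le_pow_right (by norm_num) (by omega)
    omega
  set s := 2 ^ k / (4 * (2 * k + 1)) with hs
  have hB : 0 < 4 * (2 * k + 1) := by omega
  have hsk : 4 * (2 * k + 1) * s ≤ 2 ^ k := by
    rw [hs]; exact Nat.mul_div_le _ _
  have hAB : 4 * (2 * k + 1) ≤ 2 ^ k := by
    have : ∀ m, 4 * (2 * (m + 17) + 1) ≤ 2 ^ (m + 17) := by
      intro m
      induction m with
      | zero => norm_num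
      | succ m ih =>
        have e : 2 ^ (m + 1 + 17) = 2 * 2 ^ (m + 17) := by rw [← pow_succ']
        rw [e]; omega
    have h := this (k - 17)
    rw [show k - 17 + 17 = k by omega] at h
    exact h
  have hs1 : 1 ≤ s := by
    rw [hs]; exact (Nat.one_le_div_iff hB).mpr hAB
  have hs2 : 2 ^ k < 2 * s * (4 * (2 * k + 1)) := by
    have h1 : 2 ^ k < (s + 1) * (4 * (2 * k + 1)) := by
      rw [hs]
      have := Nat.lt_div_mul_add (a := 2 ^ k) hB
      rw [Nat.add_mul, one_mul]
      exact this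
    refine lt_of_lt_of_le h1 (Nat.mul_le_mul_right _ (by omega))
  obtain ⟨χ, hχ⟩ := no_copy k s hk17 hsk
  refine ⟨(piN_inv k n hk1).toPerm, ?_⟩
  have hlt : 2 ^ (k - 11) * s < R (P (piN_inv k n hk1).toPerm) := by
    apply lt_R _ (P_ne (by omega) _) χ
    intro b f g hf hg hfN hgN hcol
    apply hχ b (fun a => f ⟨a, lt_of_lt_of_le a.2 hk1⟩) (fun a => g ⟨a, lt_of_lt_of_le a.2 hk1⟩)
      (fun a a' h => hf (by exact h)) (fun a a' h => hg (by exact h)) (fun a => hfN _) (fun a => hgN _)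
    intro a
    apply hcol
    show piN k n hk1 ⟨a, _⟩ = _
    unfold piN
    rw [if_pos a.2]
    rfl
  -- the real estimate
  have hn0 : (0 : ℝ) < n := by
    have : 0 < n := by omega
    exact_mod_cast this
  have hlog2 : (0.6931471803 : ℝ) < Real.log 2 := Real.log_two_gt_d9
  have hklog : (k : ℝ) * Real.log 2 ≤ Real.log n := by
    rw [← Real.log_pow]
    apply Real.log_le_log (by positivity)
    exact_mod_cast hk1
  have hk0 : (17 : ℝ) ≤ k := by exact_mod_cast hk17
  have h8 : (2 * k + 1 : ℝ) ≤ 8 * Real.log n := by nlinarith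
  have hlogpos : 0 < Real.log n := by nlinarith
  rw [div_le_iff₀ (by positivity)]
  have h9 : (n : ℝ) ^ 2 ≤ 2 ^ 16 * ((2 ^ (k - 11) * s : ℕ) : ℝ) * (2 * k + 1) := by
    have h10 : n ^ 2 ≤ 2 ^ 16 * (2 ^ (k - 11) * s) * (2 * k + 1) := by
      have e1 : n ^ 2 ≤ (2 ^ (k + 1)) ^ 2 := Nat.pow_le_pow_left hk2.le 2
      have e2 : (2 ^ (k + 1)) ^ 2 = 4 * (2 ^ k * 2 ^ k) := by rw [pow_succ]; ring
      have e3 : 2 ^ k * 2 ^ k ≤ 2 ^ k * (2 * s * (4 * (2 * k + 1))) := Nat.mul_le_mul_left _ hs2.le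
      have e4 : 2 ^ k = 2048 * 2 ^ (k - 11) := by
        rw [show (2048 : ℕ) = 2 ^ 11 by norm_num, ← pow_add]; congr 1; omega
      have e5 : 4 * (2 ^ k * (2 * s * (4 * (2 * k + 1)))) =
          2 ^ 16 * (2 ^ (k - 11) * s) * (2 * k + 1) := by rw [e4]; ring
      rw [← e5]
      calc n ^ 2 ≤ (2 ^ (k + 1)) ^ 2 := e1
        _ = 4 * (2 ^ k * 2 ^ k) := e2
        _ ≤ _ := Nat.mul_le_mul_left _ e3
    have h11 : ((n ^ 2 : ℕ) : ℝ) ≤ ((2 ^ 16 * (2 ^ (k - 11) * s) * (2 * k + 1) : ℕ) : ℝ) := by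
      exact_mod_cast h10
    rw [Nat.cast_pow] at h11
    refine h11.trans (le_of_eq ?_)
    push_cast
    ring
  have h12 : ((2 ^ (k - 11) * s : ℕ) : ℝ) ≤ R (P (piN_inv k n hk1).toPerm) := by
    exact_mod_cast hlt.le
  have h13 : (0 : ℝ) ≤ ((2 ^ (k - 11) * s : ℕ) : ℝ) := Nat.cast_nonneg _
  calc (n : ℝ) ^ 2 ≤ 2 ^ 16 * ((2 ^ (k - 11) * s : ℕ) : ℝ) * (2 * k + 1) := h9
    _ ≤ 2 ^ 16 * (R (P (piN_inv k n hk1).toPerm) : ℝ) * (8 * Real.log n) := by
        apply mul_le_mul (mul_le_mul_of_nonneg_left h12 (by norm_num)) h8 (by positivity)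
        positivity
    _ = (R (P (piN_inv k n hk1).toPerm) : ℝ) * (2 ^ 19 * Real.log n) := by ring

theorem all (n : ℕ) (hn : 2 ≤ n) :
    ∃ π : Equiv.Perm (Fin n), (n : ℝ) ^ 2 / (2 ^ 19 * Real.log n) ≤ R (P π) := by
  by_cases h : 2 ^ 17 ≤ n
  · exact big n h
  · push Not at h
    refine ⟨Equiv.refl _, ?_⟩
    have h1 : (n : ℝ) ≤ R (P (Equiv.refl (Fin n))) := by exact_mod_cast le_R (by omega) _
    refine le_trans ?_ h1
    have hlog2 : (0.6931471803 : ℝ) < Real.log 2 := Real.log_two_gt_d9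
    have hn2 : (2 : ℝ) ≤ n := by exact_mod_cast hn
    have h2 : Real.log 2 ≤ Real.log n := Real.log_le_log (by norm_num) hn2
    have h3 : (n : ℝ) < 2 ^ 17 := by exact_mod_cast h
    have h4 : 0 < Real.log n := by linarith
    rw [div_le_iff₀ (by positivity)]
    rw [pow_two]
    apply mul_le_mul_of_nonneg_left _ (by linarith)
    nlinarith

end Pool.Agent.H68.RS
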