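import Mathlib

/-! Bit reversal. -/

namespace Pool.Agent.H68.RS

/-- bit reversal of `k`-bit numbers -/
def rev : ℕ → ℕ → ℕ
  | 0, _ => 0
  | k + 1, a => (a % 2) * 2 ^ k + rev k (a / 2)

theorem rev_lt (k : ℕ) : ∀ a, rev k a < 2 ^ k := by
  induction k with
  | zero => intro a; simp [rev]
  | succ k ih =>
    intro a
    have h1 := ih (a / 2)
    have h2 : a % 2 ≤ 1 := by omega
    have h3 : (a % 2) * 2 ^ k ≤ 1 * 2 ^ k := Nat.mul_le_mul_right _ h2
    simp only [rev, pow_succ]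
    omega

theorem rev_add (j : ℕ) : ∀ (i p a : ℕ), a < 2 ^ i →
    rev (i + j) (p * 2 ^ i + a) = rev i a * 2 ^ j + rev j p := by
  intro i
  induction i with
  | zero =>
    intro p a ha
    have : a = 0 := by simpa using ha
    subst this
    simp [rev]
  | succ i ih =>
    intro p a ha
    have h0 : i + 1 + j = (i + j) + 1 := by omega
    rw [h0]
    simp only [rev]
    have h1 : (p * 2 ^ (i + 1) + a) % 2 = a % 2 := by
      rw [pow_succ, ← mul_assoc, Nat.add_mod, Nat.mul_mod_left]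
      simp
    have h2 : (p * 2 ^ (i + 1) + a) / 2 = p * 2 ^ i + a / 2 := by
      rw [pow_succ, ← mul_assoc]
      omega
    rw [h1, h2, ih p (a / 2) (by rw [pow_succ] at ha; omega), pow_add]
    ring

theorem rev_rev (k : ℕ) : ∀ a, a < 2 ^ k → rev k (rev k a) = a := by
  induction k with
  | zero =>
    intro a ha
    have h0 : a = 0 := by simpa using ha
    subst h0
    simp [rev]
  | succ k ih =>
    intro a ha
    have h1 : rev (k + 1) a = (a % 2) * 2 ^ k + rev k (a / 2) := rfl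
    rw [h1, rev_add 1 k (a % 2) (rev k (a / 2)) (rev_lt k _),
      ih (a / 2) (by rw [pow_succ] at ha; omega)]
    simp only [rev]
    omega

theorem rev_div (i j p a : ℕ) (ha : a < 2 ^ i) :
    rev (i + j) (p * 2 ^ i + a) / 2 ^ j = rev i a := by
  rw [rev_add j i p a ha]
  have h1 := rev_lt j p
  rw [mul_comm, Nat.mul_add_div (by positivity), Nat.div_eq_of_lt h1, add_zero]

theorem rev_exists (i j p q : ℕ) (hp : p < 2 ^ j) (hq : q < 2 ^ i) :
    ∃ a, a < 2 ^ (i + j) ∧ a / 2 ^ i = p ∧ rev (i + j) a / 2 ^ j = q := by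
  refine ⟨p * 2 ^ i + rev i q, ?_, ?_, ?_⟩
  · have h1 := rev_lt i q
    have h2 : (p + 1) * 2 ^ i ≤ 2 ^ j * 2 ^ i := Nat.mul_le_mul_right _ hp
    rw [pow_add, mul_comm (2 ^ i)]
    rw [Nat.add_mul, one_mul] at h2
    omega
  · have h1 := rev_lt i q
    rw [mul_comm, Nat.mul_add_div (by positivity), Nat.div_eq_of_lt h1, add_zero]
  · rw [rev_div i j p _ (rev_lt i q), rev_rev i q hq]

theorem rev_inj (i j a a' : ℕ) (h : a / 2 ^ i = a' / 2 ^ i)
    (h' : rev (i + j) a / 2 ^ j = rev (i + j) a' / 2 ^ j) : a = a' := by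
  have hpos : 0 < 2 ^ i := by positivity
  have e : ∀ b, b = (b / 2 ^ i) * 2 ^ i + b % 2 ^ i := fun b => by
    rw [mul_comm]; exact (Nat.div_add_mod b (2 ^ i)).symm
  have hl : ∀ b, b % 2 ^ i < 2 ^ i := fun b => Nat.mod_lt _ hpos
  rw [e a, e a', rev_div i j _ _ (hl a), rev_div i j _ _ (hl a')] at h'
  have h2 : a % 2 ^ i = a' % 2 ^ i := by
    rw [← rev_rev i _ (hl a), ← rev_rev i _ (hl a'), h']
  rw [e a, e a', h, h2]

end Pool.Agent.H68.RS
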