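import Pool.Agent.H68.RS.Main
import Pool.Agent.H68.RS.Rev
import Pool.Agent.H68.RS.Cnt

/-! A colouring without a monochromatic copy of the bit reversal permutation matrix. -/

namespace Pool.Agent.H68.RS

open Finset

theorem fiber_hi {n t : ℕ} {u : Fin n → Fin t} (hu : Monotone u) (x : Fin t) (X : ℕ)
    (h : (univ.filter (fun a => u a = x)).card ≤ X) (a a' : Fin n) (ha : u a = x)
    (ha' : u a' = x) : (a : ℕ) < a' + X := by
  by_contra hlt
  push Not at hlt
  have h1 : Finset.Icc a' a ⊆ univ.filter (fun a => u a = x) := by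
    intro z hz
    rw [mem_Icc] at hz
    rw [mem_filter]
    refine ⟨mem_univ _, le_antisymm ?_ ?_⟩
    · rw [← ha]; exact hu hz.2
    · rw [← ha']; exact hu hz.1
  have h2 := Finset.card_le_card h1
  rw [Fin.card_Icc] at h2
  omega

theorem fiber_lo {n t : ℕ} {u : Fin n → Fin t} (hu : Monotone u) (x : Fin t) (X : ℕ)
    (hX : 1 ≤ X) (h : X ≤ (univ.filter (fun a => u a = x)).card) :
    ∃ a0 : ℕ, a0 + X ≤ n ∧ ∀ a : Fin n, a0 ≤ a → (a : ℕ) < a0 + X → u a = x := by
  have hne : (univ.filter (fun a => u a = x)).Nonempty := by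
    rw [← Finset.card_pos]; omega
  set lo := (univ.filter (fun a => u a = x)).min' hne with hlo
  set hi := (univ.filter (fun a => u a = x)).max' hne with hhi
  have hlo' := Finset.min'_mem _ hne
  have hhi' := Finset.max'_mem _ hne
  rw [← hlo, mem_filter] at hlo'
  rw [← hhi, mem_filter] at hhi'
  have h1 : univ.filter (fun a => u a = x) ⊆ Finset.Icc lo hi := by
    intro z hz
    rw [mem_Icc]
    exact ⟨Finset.min'_le _ _ hz, Finset.le_max' _ _ hz⟩
  have h2 := Finset.card_le_card h1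
  rw [Fin.card_Icc] at h2
  refine ⟨lo, by omega, ?_⟩
  intro a ha ha'
  have h3 : lo ≤ a := ha
  have h4 : a ≤ hi := by
    show (a : ℕ) ≤ hi
    omega
  refine le_antisymm ?_ ?_
  · rw [← hhi'.2]; exact hu h4
  · rw [← hlo'.2]; exact hu h3

/-- the bit reversal permutation -/
def piF (k : ℕ) (a : Fin (2 ^ k)) : Fin (2 ^ k) := ⟨rev k a, rev_lt k a⟩

theorem piF_piF (k : ℕ) (a : Fin (2 ^ k)) : piF k (piF k a) = a :=
  Fin.ext (rev_rev k a a.2)

theorem piF_inj (k : ℕ) : Function.Injective (piF k) :=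
  (show Function.Involutive (piF k) from piF_piF k).injective

/-- two large fibres meet -/
theorem meet {k t : ℕ} {u v : Fin (2 ^ k) → Fin t} (hu : Monotone u) (hv : Monotone v)
    (x y : Fin t) (X Y : ℕ) (hX : X ≤ (univ.filter (fun a => u a = x)).card)
    (hY : Y ≤ (univ.filter (fun a => v a = y)).card) (hXY : 8 * 2 ^ k ≤ X * Y) :
    ∃ a, u a = x ∧ v (piF k a) = y := by
  have hk : 0 < 2 ^ k := by positivity
  have hX' : X ≤ 2 ^ k := by
    refine hX.trans ((Finset.card_le_univ _).trans ?_)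
    simp
  have hY' : Y ≤ 2 ^ k := by
    refine hY.trans ((Finset.card_le_univ _).trans ?_)
    simp
  have hX8 : 8 ≤ X := by
    by_contra hlt
    push Not at hlt
    have h1 : X * Y ≤ 7 * 2 ^ k := Nat.mul_le_mul (by omega) hY'
    omega
  have hY1 : 1 ≤ Y := by
    by_contra hlt
    have : Y = 0 := by omega
    subst this
    omega
  obtain ⟨a0, ha0, ha⟩ := fiber_lo hu x X (by omega) hX
  obtain ⟨b0, hb0, hb⟩ := fiber_lo hv y Y hY1 hY
  -- the scale
  set i := Nat.log 2 X - 1 with hi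
  have hlog : 3 ≤ Nat.log 2 X := by
    have := Nat.log_mono_right (b := 2) hX8
    have h8 : Nat.log 2 8 = 3 := by decide
    omega
  have h1 : 2 ^ (i + 1) ≤ X := by
    have := Nat.pow_log_le_self 2 (show X ≠ 0 by omega)
    rwa [show i + 1 = Nat.log 2 X by omega]
  have h2 : X < 2 ^ (i + 2) := by
    have := Nat.lt_pow_succ_log_self (b := 2) (by norm_num) X
    rwa [show i + 2 = (Nat.log 2 X).succ by omega]
  have hik : i + 1 ≤ k := by
    by_contra hlt
    push Not at hlt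
    have : 2 ^ (k + 1) ≤ 2 ^ (i + 1) := Nat.pow_le_pow_right (by norm_num) (by omega)
    rw [pow_succ] at this
    omega
  obtain ⟨j, rfl⟩ : ∃ j, k = i + j := ⟨k - i, by omega⟩
  have h3 : 2 ^ (j + 1) < Y := by
    by_contra hlt
    push Not at hlt
    have h4 : X * Y ≤ X * 2 ^ (j + 1) := Nat.mul_le_mul_left _ hlt
    have h5 : X * 2 ^ (j + 1) < 2 ^ (i + 2) * 2 ^ (j + 1) :=
      Nat.mul_lt_mul_of_pos_right h2 (by positivity)
    have h6 : 2 ^ (i + 2) * 2 ^ (j + 1) = 8 * 2 ^ (i + j) := by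
      rw [← pow_add, show (8 : ℕ) = 2 ^ 3 by norm_num, ← pow_add]
      congr 1; omega
    omega
  have hpi : 0 < 2 ^ i := by positivity
  have hpj : 0 < 2 ^ j := by positivity
  have e1 : 2 ^ (i + 1) = 2 * 2 ^ i := by rw [pow_succ]; ring
  have e2 : 2 ^ (j + 1) = 2 * 2 ^ j := by rw [pow_succ]; ring
  have e3 : 2 ^ (i + j) = 2 ^ i * 2 ^ j := pow_add _ _ _
  set p := a0 / 2 ^ i + 1 with hp
  set q := b0 / 2 ^ j + 1 with hq
  have p1 : a0 ≤ p * 2 ^ i := by
    have := Nat.lt_div_mul_add (a := a0) hpi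
    rw [hp, Nat.add_mul, one_mul]; omega
  have p2 : (p + 1) * 2 ^ i ≤ a0 + X := by
    have := Nat.div_mul_le_self a0 (2 ^ i)
    have h4 : (p + 1) * 2 ^ i = a0 / 2 ^ i * 2 ^ i + 2 * 2 ^ i := by rw [hp]; ring
    omega
  have q1 : b0 ≤ q * 2 ^ j := by
    have := Nat.lt_div_mul_add (a := b0) hpj
    rw [hq, Nat.add_mul, one_mul]; omega
  have q2 : (q + 1) * 2 ^ j ≤ b0 + Y := by
    have := Nat.div_mul_le_self b0 (2 ^ j)
    have h4 : (q + 1) * 2 ^ j = b0 / 2 ^ j * 2 ^ j + 2 * 2 ^ j := by rw [hq]; ring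
    omega
  have hpb : p < 2 ^ j := by
    have h4 : (p + 1) * 2 ^ i ≤ 2 ^ j * 2 ^ i := by rw [mul_comm (2 ^ j), ← e3]; omega
    have := Nat.le_of_mul_le_mul_right h4 hpi
    omega
  have hqb : q < 2 ^ i := by
    have h4 : (q + 1) * 2 ^ j ≤ 2 ^ i * 2 ^ j := by rw [← e3]; omega
    have := Nat.le_of_mul_le_mul_right h4 hpj
    omega
  obtain ⟨a, ha1, ha2, ha3⟩ := rev_exists i j p q hpb hqb
  refine ⟨⟨a, ha1⟩, ?_, ?_⟩
  · apply ha
    · show a0 ≤ a
      have := Nat.div_mul_le_self a (2 ^ i)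
      rw [ha2] at this
      omega
    · show a < a0 + X
      have := Nat.lt_div_mul_add (a := a) hpi
      rw [ha2] at this
      rw [Nat.add_mul, one_mul] at p2
      omega
  · apply hb
    · show b0 ≤ rev (i + j) a
      have := Nat.div_mul_le_self (rev (i + j) a) (2 ^ j)
      rw [ha3] at this
      omega
    · show rev (i + j) a < b0 + Y
      have := Nat.lt_div_mul_add (a := rev (i + j) a) hpj
      rw [ha3] at this
      rw [Nat.add_mul, one_mul] at q2
      omega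

/-- two small fibres have few common points -/
theorem few {k t : ℕ} {u v : Fin (2 ^ k) → Fin t} (hu : Monotone u) (hv : Monotone v)
    (x y : Fin t) (X Y : ℕ) (hX : (univ.filter (fun a => u a = x)).card ≤ X)
    (hY : (univ.filter (fun a => v a = y)).card ≤ Y) (hXY : X * Y < 8 * 2 ^ k)
    (hXk : X ≤ 2 ^ k) :
    (univ.filter (fun a => u a = x ∧ v (piF k a) = y)).card ≤ 32 := by
  rcases (univ.filter (fun a => u a = x ∧ v (piF k a) = y)).eq_empty_or_nonempty with he | hne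
  · rw [he]; simp
  set S := univ.filter (fun a => u a = x ∧ v (piF k a) = y) with hS
  have hX1 : 1 ≤ X := by
    obtain ⟨a, ha⟩ := hne
    rw [hS, mem_filter] at ha
    refine le_trans ?_ hX
    rw [Nat.one_le_iff_ne_zero]
    intro h0
    rw [Finset.card_eq_zero] at h0
    have : a ∈ univ.filter (fun a => u a = x) := by rw [mem_filter]; exact ⟨mem_univ _, ha.2.1⟩
    rw [h0] at this
    simp at this
  set i := Nat.log 2 X with hi
  have h1 : 2 ^ i ≤ X := Nat.pow_log_le_self 2 (by omega)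
  have h2 : X < 2 ^ (i + 1) := Nat.lt_pow_succ_log_self (by norm_num) X
  have hik : i ≤ k := by
    by_contra hlt
    push Not at hlt
    have : 2 ^ (k + 1) ≤ 2 ^ i := Nat.pow_le_pow_right (by norm_num) (by omega)
    rw [pow_succ] at this
    have h0 : 0 < 2 ^ k := by positivity
    omega
  obtain ⟨j, hj⟩ : ∃ j, k = i + j := ⟨k - i, by omega⟩
  have hpi : 0 < 2 ^ i := by positivity
  have hpj : 0 < 2 ^ j := by positivity
  have h3 : Y < 8 * 2 ^ j := by
    by_contra hlt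
    push Not at hlt
    have h4 : 2 ^ i * (8 * 2 ^ j) ≤ X * Y := Nat.mul_le_mul h1 hlt
    have h5 : 2 ^ i * (8 * 2 ^ j) = 8 * 2 ^ k := by rw [hj, pow_add]; ring
    omega
  -- least elements
  have hneA : (S.image (fun a : Fin (2 ^ k) => (a : ℕ))).Nonempty := hne.image _
  have hneB : (S.image (fun a : Fin (2 ^ k) => rev k a)).Nonempty := hne.image _
  set a0 := (S.image (fun a : Fin (2 ^ k) => (a : ℕ))).min' hneA with ha0
  set b0 := (S.image (fun a : Fin (2 ^ k) => rev k a)).min' hneB with hb0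
  have hA : ∀ a ∈ S, a0 ≤ a ∧ (a : ℕ) < a0 + X := by
    intro a ha
    refine ⟨Finset.min'_le _ _ (mem_image_of_mem _ ha), ?_⟩
    have h4 := Finset.min'_mem _ hneA
    rw [← ha0, mem_image] at h4
    obtain ⟨a', ha', he'⟩ := h4
    rw [hS, mem_filter] at ha ha'
    have := fiber_hi hu x X hX a a' ha.2.1 ha'.2.1
    omega
  have hB : ∀ a ∈ S, b0 ≤ rev k a ∧ rev k a < b0 + Y := by
    intro a ha
    refine ⟨Finset.min'_le _ _ (mem_image_of_mem _ ha), ?_⟩
    have h4 := Finset.min'_mem _ hneB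
    rw [← hb0, mem_image] at h4
    obtain ⟨a', ha', he'⟩ := h4
    rw [hS, mem_filter] at ha ha'
    have := fiber_hi hv y Y hY (piF k a) (piF k a') ha.2.2 ha'.2.2
    have e1 : ((piF k a : Fin (2 ^ k)) : ℕ) = rev k a := rfl
    have e2 : ((piF k a' : Fin (2 ^ k)) : ℕ) = rev k a' := rfl
    omega
  have hcard : S.card ≤ (Finset.Icc (a0 / 2 ^ i) (a0 / 2 ^ i + 2) ×ˢ
      Finset.Icc (b0 / 2 ^ j) (b0 / 2 ^ j + 8)).card := by
    apply Finset.card_le_card_of_injOn
      (fun a : Fin (2 ^ k) => ((a : ℕ) / 2 ^ i, rev k a / 2 ^ j))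
    · intro a ha
      rw [mem_coe] at ha
      obtain ⟨g1, g2⟩ := hA a ha
      obtain ⟨g3, g4⟩ := hB a ha
      rw [mem_coe, mem_product, mem_Icc, mem_Icc]
      refine ⟨⟨Nat.div_le_div_right g1, ?_⟩, ⟨Nat.div_le_div_right g3, ?_⟩⟩
      · have e1 : 2 ^ (i + 1) = 2 * 2 ^ i := by rw [pow_succ]; ring
        have g5 : (a : ℕ) ≤ a0 + 2 * 2 ^ i := by omega
        have g6 := Nat.div_le_div_right (c := 2 ^ i) g5
        rw [Nat.add_mul_div_right _ _ hpi] at g6
        exact g6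
      · have g5 : rev k a ≤ b0 + 8 * 2 ^ j := by omega
        have g6 := Nat.div_le_div_right (c := 2 ^ j) g5
        rw [Nat.add_mul_div_right _ _ hpj] at g6
        exact g6
    · intro a _ a' _ h
      simp only [Prod.mk.injEq] at h
      apply Fin.ext
      subst hj
      exact rev_inj i j a a' h.1 h.2
  refine hcard.trans ?_
  rw [card_product, Nat.card_Icc, Nat.card_Icc]
  have e1 : a0 / 2 ^ i + 2 + 1 - a0 / 2 ^ i = 3 := by omega
  have e2 : b0 / 2 ^ j + 8 + 1 - b0 / 2 ^ j = 9 := by omega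
  rw [e1, e2]
  norm_num

/-- the cells that a pair of monotone maps forces -/
def cells {k t : ℕ} (u v : Fin (2 ^ k) → Fin t) : Finset (Fin t × Fin t) :=
  univ.image (fun a => (u a, v (piF k a)))

theorem exists_colouring (k : ℕ) (hk : 11 ≤ k) :
    ∃ c : Fin (2 ^ (k - 11)) × Fin (2 ^ (k - 11)) → Bool,
      (∀ b, ∀ u v : Fin (2 ^ k) → Fin (2 ^ (k - 11)), Monotone u → Monotone v →
        2 ^ (k - 6) ≤ (cells u v).card → ¬ ∀ z ∈ cells u v, c z = b) ∧
      (∀ b, ∀ T T' : Finset (Fin (2 ^ (k - 11))), T.card = 2 * k + 1 → T'.card = 2 * k + 1 →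
        ¬ ∀ z ∈ T ×ˢ T', c z = b) := by
  classical
  set t := 2 ^ (k - 11) with ht
  have ht1 : 1 ≤ t := Nat.one_le_two_pow
  have hnt : 2 ^ k = 2048 * t := by
    rw [ht, show (2048 : ℕ) = 2 ^ 11 by norm_num, ← pow_add]
    congr 1; omega
  have hqt : 2 ^ (k - 6) = 32 * t := by
    rw [ht, show (32 : ℕ) = 2 ^ 5 by norm_num, ← pow_add]
    congr 1; omega
  set MM := (univ.filter (fun u : Fin (2 ^ k) → Fin t => Monotone u)) with hMM
  have hMMc : MM.card ≤ 2 ^ (13 * t) := by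
    refine (card_monotone (2 ^ k) t).trans ?_
    rw [hnt]
    exact choose_bound t
  set A := (((MM ×ˢ MM).image (fun p => cells p.1 p.2)).filter (fun Q => 2 ^ (k - 6) ≤ Q.card))
    with hA
  set B := ((powersetCard (2 * k + 1) (univ : Finset (Fin t))) ×ˢ
    (powersetCard (2 * k + 1) (univ : Finset (Fin t)))).image (fun p => p.1 ×ˢ p.2) with hB
  have hA1 : ∀ Q ∈ A, 2 ^ (k - 6) ≤ Q.card := by
    intro Q hQ
    rw [hA, mem_filter] at hQ
    exact hQ.2
  have hA2 : A.card * 4 < 2 ^ (2 ^ (k - 6)) := by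
    have h1 : A.card ≤ 2 ^ (26 * t) := by
      refine (Finset.card_filter_le _ _).trans (Finset.card_image_le.trans ?_)
      rw [card_product]
      calc MM.card * MM.card ≤ 2 ^ (13 * t) * 2 ^ (13 * t) := Nat.mul_le_mul hMMc hMMc
        _ = 2 ^ (26 * t) := by rw [← pow_add]; congr 1; ring
    calc A.card * 4 ≤ 2 ^ (26 * t) * 2 ^ 2 := Nat.mul_le_mul h1 (by norm_num)
      _ = 2 ^ (26 * t + 2) := by rw [pow_add]
      _ < 2 ^ (2 ^ (k - 6)) := by
          apply Nat.pow_lt_pow_right (by norm_num)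
          rw [hqt]; omega
  have hB1 : ∀ Q ∈ B, (2 * k + 1) * (2 * k + 1) ≤ Q.card := by
    intro Q hQ
    rw [hB, mem_image] at hQ
    obtain ⟨⟨T, T'⟩, hTT, rfl⟩ := hQ
    rw [mem_product, mem_powersetCard, mem_powersetCard] at hTT
    rw [card_product, hTT.1.2, hTT.2.2]
  have hB2 : B.card * 4 < 2 ^ ((2 * k + 1) * (2 * k + 1)) := by
    have h1 : B.card ≤ 2 ^ (2 * (k - 11) * (2 * k + 1)) := by
      refine Finset.card_image_le.trans ?_
      rw [card_product, card_powersetCard, Finset.card_univ, Fintype.card_fin]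
      have h2 : t.choose (2 * k + 1) ≤ t ^ (2 * k + 1) := Nat.choose_le_pow _ _
      calc t.choose (2 * k + 1) * t.choose (2 * k + 1)
          ≤ t ^ (2 * k + 1) * t ^ (2 * k + 1) := Nat.mul_le_mul h2 h2
        _ = 2 ^ (2 * (k - 11) * (2 * k + 1)) := by
            rw [ht, ← pow_mul, ← pow_add]; congr 1; ring
    calc B.card * 4 ≤ 2 ^ (2 * (k - 11) * (2 * k + 1)) * 2 ^ 2 := Nat.mul_le_mul h1 (by norm_num)
      _ = 2 ^ (2 * (k - 11) * (2 * k + 1) + 2) := by rw [pow_add]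
      _ < 2 ^ ((2 * k + 1) * (2 * k + 1)) := by
          apply Nat.pow_lt_pow_right (by norm_num)
          have : (2 * (k - 11) + 22) * (2 * k + 1) ≤ (2 * k + 1) * (2 * k + 1) :=
            Nat.mul_le_mul_right _ (by omega)
          rw [Nat.add_mul] at this
          omega
  obtain ⟨c, hc1, hc2⟩ := avoid A B (2 ^ (k - 6)) ((2 * k + 1) * (2 * k + 1))
    hA1 hA2 hB1 hB2
  refine ⟨c, ?_, ?_⟩
  · intro b u v hu hv hcard
    apply hc1 b
    rw [hA, mem_filter]
    refine ⟨?_, hcard⟩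
    rw [mem_image]
    refine ⟨(u, v), ?_, rfl⟩
    rw [mem_product, hMM, mem_filter, mem_filter]
    exact ⟨⟨mem_univ _, hu⟩, ⟨mem_univ _, hv⟩⟩
  · intro b T T' hT hT'
    apply hc2 b
    rw [hB, mem_image]
    refine ⟨(T, T'), ?_, rfl⟩
    rw [mem_product, mem_powersetCard, mem_powersetCard]
    exact ⟨⟨subset_univ _, hT⟩, ⟨subset_univ _, hT'⟩⟩

end Pool.Agent.H68.RS
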