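import Pool.Agent.H68.RS.Main

/-! An explicit bound for the Ramsey numbers of matrices with few 1-entries in each row. -/

namespace Pool.Agent.H68.RS.RowSparseOld

open Pool.Agent.H68.RS

/-- For all `d, n ≥ 1`: every `n × n` matrix `M` with at most `d` 1-entries in each row has a
monochromatic copy in every 2-coloured `n^(d+1) × n^(d+1)` matrix; in particular the set of the
values `R M` is bounded (so `f d n` is its maximum) and `f d n ≤ n^(d+1)`. -/
theorem result : ∀ d n : ℕ, 1 ≤ d → 1 ≤ n →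
    (∀ M : Fin n → Fin n → Prop, (∀ r, {c | M r c}.ncard ≤ d) →
      (∀ χ : Fin (n ^ (d + 1)) → Fin (n ^ (d + 1)) → Bool, HasMonoCopy M χ) ∧
      R M ≤ n ^ (d + 1)) ∧
    f d n ≤ n ^ (d + 1) := by
  intro d n _ hn
  refine ⟨fun M hM => ⟨fun χ => hasMonoCopy hn M hM χ, R_le hn M hM⟩, ?_⟩
  unfold f
  apply csSup_le
  · refine ⟨R (fun _ _ : Fin n => False), fun _ _ => False, ?_, rfl⟩
    intro r
    simp
  · rintro m ⟨M, hM, rfl⟩
    exact R_le hn M hM

end Pool.Agent.H68.RS.RowSparseOld
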